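import Mathlib

/-!
# Isoperimetric profiles: definitions
-/

set_option autoImplicit false

open MeasureTheory Filter Topology
open scoped ENNReal

namespace Q188.Pyth

/-- The boundary measure `μ⁺(A) = liminf_{r → 0+} (μ(A_r) - μ(A)) / r`, where `A_r` is the open
`r`-neighbourhood of `A` (`Metric.thickening r A`), with values in `[0, ∞]`. -/
noncomputable def boundaryMeasure {X : Type*} [PseudoMetricSpace X] [MeasurableSpace X]
    (μ : Measure X) (A : Set X) : ℝ≥0∞ :=
  liminf (fun r : ℝ => (μ (Metric.thickening r A) - μ A) / ENNReal.ofReal r) (𝓝[>] 0)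

/-- The isoperimetric profile `I_μ(a)`: the infimum of `μ⁺(A)` over the measurable sets `A` with
`μ(A) = a`. -/
noncomputable def profile {X : Type*} [PseudoMetricSpace X] [MeasurableSpace X]
    (μ : Measure X) (a : ℝ) : ℝ≥0∞ :=
  ⨅ (A : Set X) (_ : MeasurableSet A) (_ : μ A = ENNReal.ofReal a), boundaryMeasure μ A

/-- `R_μ(a) = I_μ(a) / a`. -/
noncomputable def R {X : Type*} [PseudoMetricSpace X] [MeasurableSpace X]
    (μ : Measure X) (a : ℝ) : ℝ≥0∞ :=
  profile μ a / ENNReal.ofReal a

/-- The product measure `μ₁ ⊗ μ₂` of two measures on the line, as a measure on the Euclidean plane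
`EuclideanSpace ℝ (Fin 2)`. -/
noncomputable def prodMeasure (μ₁ μ₂ : Measure ℝ) : Measure (EuclideanSpace ℝ (Fin 2)) :=
  (μ₁.prod μ₂).map fun p : ℝ × ℝ => !₂[p.1, p.2]

/-- `μ` is a symmetric log-concave probability law on the line: a probability measure that has a
log-concave density `f ≥ 0` with respect to Lebesgue measure (that is, `f = e^{-V}` with `V` convex
and with values in `(-∞, ∞]`), and `μ(-A) = μ(A)` for all measurable `A`. -/
structure SymLogConcave (μ : Measure ℝ) : Prop where
  prob : IsProbabilityMeasure μ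
  density : ∃ f : ℝ → ℝ, Measurable f ∧ (∀ x, 0 ≤ f x) ∧
    (∀ x y s : ℝ, 0 < s → s < 1 → f x ^ s * f y ^ (1 - s) ≤ f (s * x + (1 - s) * y)) ∧
    μ = volume.withDensity fun x => ENNReal.ofReal (f x)
  symm : ∀ A : Set ℝ, MeasurableSet A → μ (Neg.neg ⁻¹' A) = μ A

end Q188.Pyth
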