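import Pool.Agent.Q188.Pyth.Defs

/-!
# The two-sided exponential law
-/

set_option autoImplicit false

open MeasureTheory Filter Topology Set
open scoped ENNReal

namespace Q188.Pyth

/-- the density -/
noncomputable def dens (x : ℝ) : ℝ := Real.exp (-|x|) / 2

theorem dens_cont : Continuous dens := by unfold dens; fun_prop

theorem dens_nonneg (x : ℝ) : 0 ≤ dens x := by unfold dens; positivity

theorem dens_neg {x : ℝ} (h : x ≤ 0) : dens x = Real.exp x / 2 := by
  unfold dens; rw [abs_of_nonpos h, neg_neg]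

theorem dens_pos {x : ℝ} (h : 0 ≤ x) : dens x = Real.exp (-x) / 2 := by
  unfold dens; rw [abs_of_nonneg h]

/-- the law -/
noncomputable def lap : Measure ℝ := volume.withDensity fun x => ENNReal.ofReal (dens x)

theorem lap_apply {A : Set ℝ} (hA : MeasurableSet A) :
    lap A = ∫⁻ x in A, ENNReal.ofReal (dens x) := by
  unfold lap
  rw [withDensity_apply _ hA]

theorem integrable_dens : Integrable dens := by
  rw [← integrableOn_univ, ← Iic_union_Ioi (a := (0 : ℝ))]
  apply IntegrableOn.union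
  · have h : IntegrableOn (fun x => Real.exp x / 2) (Iic 0) := (integrableOn_exp_Iic 0).div_const 2
    exact h.congr_fun (fun x hx => (dens_neg hx).symm) measurableSet_Iic
  · have h : IntegrableOn (fun x => Real.exp (-x) / 2) (Ioi 0) :=
      (integrableOn_exp_neg_Ioi 0).div_const 2
    exact h.congr_fun (fun x hx => (dens_pos (le_of_lt hx)).symm) measurableSet_Ioi

theorem lap_real {A : Set ℝ} (hA : MeasurableSet A) :
    lap A = ENNReal.ofReal (∫ x in A, dens x) := by
  rw [lap_apply hA, ofReal_integral_eq_lintegral_ofReal integrable_dens.integrableOn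
    (Eventually.of_forall dens_nonneg)]

theorem int_Iic {t : ℝ} (ht : t ≤ 0) : ∫ x in Iic t, dens x = Real.exp t / 2 := by
  rw [setIntegral_congr_fun measurableSet_Iic (fun x (hx : x ∈ Iic t) => dens_neg (le_trans hx ht)),
    integral_div, integral_exp_Iic]

theorem int_Ioi {t : ℝ} (ht : 0 ≤ t) : ∫ x in Ioi t, dens x = Real.exp (-t) / 2 := by
  rw [setIntegral_congr_fun measurableSet_Ioi
    (fun x (hx : x ∈ Ioi t) => dens_pos (le_trans ht (le_of_lt hx))),
    integral_div, integral_exp_neg_Ioi]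

theorem int_univ : ∫ x, dens x = 1 := by
  rw [← setIntegral_univ, ← Iic_union_Ioi (a := (0 : ℝ)),
    setIntegral_union (Set.Iic_disjoint_Ioi le_rfl) measurableSet_Ioi integrable_dens.integrableOn
      integrable_dens.integrableOn, int_Iic le_rfl, int_Ioi le_rfl]
  norm_num

instance lap_prob : IsProbabilityMeasure lap := by
  constructor
  rw [lap_real MeasurableSet.univ, setIntegral_univ, int_univ, ENNReal.ofReal_one]

/-- distribution function -/
noncomputable def F (t : ℝ) : ℝ := if t ≤ 0 then Real.exp t / 2 else 1 - Real.exp (-t) / 2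

theorem lap_Iio (t : ℝ) : lap (Iio t) = ENNReal.ofReal (F t) := by
  rw [lap_real measurableSet_Iio, ← integral_Iic_eq_integral_Iio]
  congr 1
  unfold F
  split_ifs with h
  · exact int_Iic h
  · push Not at h
    have h1 := int_Ioi h.le
    have h2 : (∫ x in Iic t, dens x) + ∫ x in Ioi t, dens x = 1 := by
      rw [← setIntegral_union (Set.Iic_disjoint_Ioi le_rfl) measurableSet_Ioi
        integrable_dens.integrableOn integrable_dens.integrableOn, Iic_union_Ioi, setIntegral_univ,
        int_univ]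
    linarith

theorem dens_add {x s : ℝ} (h : s ≤ x) (hs : 0 ≤ s) : dens (x - s) = Real.exp s * dens x := by
  rw [dens_pos (by linarith), dens_pos (by linarith), ← mul_div_assoc, ← Real.exp_add]
  ring_nf

theorem dens_symm (x : ℝ) : dens (-x) = dens x := by
  unfold dens; rw [abs_neg]

theorem lap_symm (A : Set ℝ) (hA : MeasurableSet A) : lap (Neg.neg ⁻¹' A) = lap A := by
  rw [lap_apply hA, lap_apply (measurable_neg hA), ← lintegral_indicator hA,
    ← lintegral_indicator (measurable_neg hA), ← lintegral_neg_eq_self]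
  congr 1
  funext x
  by_cases hx : x ∈ A
  · rw [indicator_of_mem (by rw [mem_preimage, neg_neg]; exact hx), indicator_of_mem hx, dens_symm]
  · rw [indicator_of_notMem (by rw [mem_preimage, neg_neg]; exact hx), indicator_of_notMem hx]

/-- shifting the positive part towards `0` -/
theorem shift_pos {B : Set ℝ} (hB : MeasurableSet B) {s : ℝ} (hs : 0 ≤ s)
    (h : ∀ x ∈ B, s < |x|) :
    lap {y | 0 < y ∧ y + s ∈ B} = ENNReal.ofReal (Real.exp s) * lap (B ∩ Ioi 0) := by
  have hm : MeasurableSet {y : ℝ | 0 < y ∧ y + s ∈ B} :=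
    measurableSet_Ioi.inter ((measurable_id.add_const s) hB)
  rw [lap_apply hm, lap_apply (hB.inter measurableSet_Ioi), ← lintegral_indicator hm,
    ← lintegral_indicator (hB.inter measurableSet_Ioi),
    ← lintegral_const_mul _ (by
      apply Measurable.indicator _ (hB.inter measurableSet_Ioi)
      exact dens_cont.measurable.ennreal_ofReal),
    ← lintegral_sub_right_eq_self _ s]
  congr 1
  funext x
  by_cases hx : x ∈ B ∩ Ioi 0
  · have h1 := h x hx.1
    rw [abs_of_pos hx.2] at h1
    have hx' : x - s ∈ {y : ℝ | 0 < y ∧ y + s ∈ B} := by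
      refine ⟨by linarith, ?_⟩
      rw [sub_add_cancel]
      exact hx.1
    rw [indicator_of_mem hx, indicator_of_mem hx', dens_add h1.le hs,
      ENNReal.ofReal_mul (Real.exp_pos s).le]
  · have hx' : x - s ∉ {y : ℝ | 0 < y ∧ y + s ∈ B} := by
      rintro ⟨h1, h2⟩
      rw [sub_add_cancel] at h2
      exact hx ⟨h2, by simp only [mem_Ioi]; linarith⟩
    rw [indicator_of_notMem hx, indicator_of_notMem hx', mul_zero]

theorem shift_neg {B : Set ℝ} (hB : MeasurableSet B) {s : ℝ} (hs : 0 ≤ s)
    (h : ∀ x ∈ B, s < |x|) :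
    lap {y | y < 0 ∧ y - s ∈ B} = ENNReal.ofReal (Real.exp s) * lap (B ∩ Iio 0) := by
  have h1 := shift_pos (B := Neg.neg ⁻¹' B) (measurable_neg hB) hs (by
    intro x hx
    have := h (-x) hx
    rwa [abs_neg] at this)
  have e1 : {y : ℝ | 0 < y ∧ y + s ∈ Neg.neg ⁻¹' B} = Neg.neg ⁻¹' {y | y < 0 ∧ y - s ∈ B} := by
    ext y
    simp only [mem_ofPred_eq, mem_preimage, Left.neg_neg_iff, neg_add, ← sub_eq_add_neg]
  have e2 : (Neg.neg ⁻¹' B : Set ℝ) ∩ Ioi 0 = Neg.neg ⁻¹' (B ∩ Iio 0) := by
    ext y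
    simp only [mem_inter_iff, mem_preimage, mem_Ioi, mem_Iio, Left.neg_neg_iff]
  rw [e1, e2, lap_symm _ (hB.inter measurableSet_Iio), lap_symm] at h1
  · exact h1
  · exact measurableSet_Iio.inter ((measurable_id.sub_const s) hB)

theorem shift {B C : Set ℝ} (hB : MeasurableSet B) {s : ℝ} (hs : 0 ≤ s)
    (h : ∀ x ∈ B, s < |x|) (hC : ∀ y, (0 < y ∧ y + s ∈ B) ∨ (y < 0 ∧ y - s ∈ B) → y ∈ C) :
    ENNReal.ofReal (Real.exp s) * lap B ≤ lap C := by
  have h1 : lap B ≤ lap (B ∩ Ioi 0) + lap (B ∩ Iio 0) := by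
    refine le_trans (measure_mono ?_) (measure_union_le _ _)
    intro x hx
    rcases lt_trichotomy x 0 with h0 | h0 | h0
    · exact Or.inr ⟨hx, h0⟩
    · exfalso
      have := h x hx
      rw [h0, abs_zero] at this
      linarith
    · exact Or.inl ⟨hx, h0⟩
  have hm2 : MeasurableSet {y : ℝ | y < 0 ∧ y - s ∈ B} :=
    measurableSet_Iio.inter ((measurable_id.sub_const s) hB)
  have hd : Disjoint {y : ℝ | 0 < y ∧ y + s ∈ B} {y | y < 0 ∧ y - s ∈ B} := by
    rw [Set.disjoint_left]
    rintro y ⟨h1, -⟩ ⟨h2, -⟩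
    linarith
  calc ENNReal.ofReal (Real.exp s) * lap B
      ≤ ENNReal.ofReal (Real.exp s) * (lap (B ∩ Ioi 0) + lap (B ∩ Iio 0)) := by gcongr
    _ = lap {y | 0 < y ∧ y + s ∈ B} + lap {y | y < 0 ∧ y - s ∈ B} := by
        rw [mul_add, shift_pos hB hs h, shift_neg hB hs h]
    _ = lap ({y | 0 < y ∧ y + s ∈ B} ∪ {y | y < 0 ∧ y - s ∈ B}) := by
        rw [measure_union hd hm2]
    _ ≤ lap C := measure_mono fun y hy => hC y hy

end Q188.Pyth
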