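import Pool.Agent.Q188.Pyth.Lap

/-!
# The isoperimetric inequality for the two-sided exponential law
-/

set_option autoImplicit false

open MeasureTheory Filter Topology Set
open scoped ENNReal

namespace Q188.Pyth

theorem lap_real_le {A : Set ℝ} : (lap A).toReal ≤ 1 := by
  have := prob_le_one (μ := lap) (s := A)
  exact ENNReal.toReal_mono ENNReal.one_ne_top this

theorem key1 {A : Set ℝ} (hA : MeasurableSet A) (h0 : (0 : ℝ) ∉ closure A) :
    ∃ δ > 0, ∀ r s : ℝ, 0 ≤ s → s < r → r < δ →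
      Real.exp s * (lap A).toReal ≤ (lap (Metric.thickening r A)).toReal := by
  rw [Metric.mem_closure_iff] at h0
  push Not at h0
  obtain ⟨δ, hδ, h⟩ := h0
  refine ⟨δ, hδ, fun r s hs hsr hr => ?_⟩
  have h1 := shift hA (C := Metric.thickening r A) hs (fun x hx => by
    have := h x hx
    rw [Real.dist_eq, zero_sub, abs_neg] at this
    linarith) (by
    rintro y (⟨h1, h2⟩ | ⟨h1, h2⟩)
    · rw [Metric.mem_thickening_iff]
      refine ⟨y + s, h2, ?_⟩
      rw [Real.dist_eq]
      have : y - (y + s) = -s := by ring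
      rw [this, abs_neg, abs_of_nonneg hs]
      exact hsr
    · rw [Metric.mem_thickening_iff]
      refine ⟨y - s, h2, ?_⟩
      rw [Real.dist_eq]
      have : y - (y - s) = s := by ring
      rw [this, abs_of_nonneg hs]
      exact hsr)
  have h2 := ENNReal.toReal_mono (measure_ne_top lap _) h1
  rwa [ENNReal.toReal_mul, ENNReal.toReal_ofReal (Real.exp_pos s).le] at h2

theorem key2 {A : Set ℝ} (hA : MeasurableSet A) (h0 : (0 : ℝ) ∈ closure A) {r s : ℝ}
    (hs : 0 ≤ s) (hsr : s < r) :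
    Real.exp s * (1 - (lap (Metric.thickening r A)).toReal) ≤ 1 - (lap A).toReal := by
  have hB : MeasurableSet (Metric.thickening r A)ᶜ := Metric.isOpen_thickening.measurableSet.compl
  have h1 := shift hB (C := Aᶜ) hs (by
    intro x hx
    by_contra hc
    push Not at hc
    apply hx
    rw [Metric.mem_closure_iff] at h0
    obtain ⟨a, ha, hd⟩ := h0 (r - |x|) (by linarith)
    rw [Metric.mem_thickening_iff]
    refine ⟨a, ha, ?_⟩
    have h3 := dist_triangle x 0 a
    rw [Real.dist_eq x 0, sub_zero] at h3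
    linarith) (by
    rintro y (⟨h1, h2⟩ | ⟨h1, h2⟩) hy
    · apply h2
      rw [Metric.mem_thickening_iff]
      refine ⟨y, hy, ?_⟩
      rw [Real.dist_eq, add_sub_cancel_left, abs_of_nonneg hs]
      exact hsr
    · apply h2
      rw [Metric.mem_thickening_iff]
      refine ⟨y, hy, ?_⟩
      have : y - s - y = -s := by ring
      rw [Real.dist_eq, this, abs_neg, abs_of_nonneg hs]
      exact hsr)
  have h2 := ENNReal.toReal_mono (measure_ne_top lap _) h1
  rw [ENNReal.toReal_mul, ENNReal.toReal_ofReal (Real.exp_pos s).le] at h2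
  have e1 : (lap (Metric.thickening r A)ᶜ).toReal = 1 - (lap (Metric.thickening r A)).toReal :=
    probReal_compl_eq_one_sub Metric.isOpen_thickening.measurableSet
  have e2 : (lap Aᶜ).toReal = 1 - (lap A).toReal := probReal_compl_eq_one_sub hA
  rwa [e1, e2] at h2

/-- lower bound for the difference quotients -/
theorem quot {A : Set ℝ} (hA : MeasurableSet A) : ∀ᶠ r : ℝ in 𝓝[>] 0,
    min (lap A).toReal (1 - (lap A).toReal) * (1 - 2 * r) * r ≤
      (lap (Metric.thickening r A)).toReal - (lap A).toReal := by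
  have ha0 : 0 ≤ (lap A).toReal := ENNReal.toReal_nonneg
  have ha1 : (lap A).toReal ≤ 1 := lap_real_le
  have hm0 : 0 ≤ min (lap A).toReal (1 - (lap A).toReal) := le_min ha0 (by linarith)
  have hm1 := min_le_left (lap A).toReal (1 - (lap A).toReal)
  have hm2 := min_le_right (lap A).toReal (1 - (lap A).toReal)
  by_cases h0 : (0 : ℝ) ∈ closure A
  · have hev : ∀ᶠ r : ℝ in 𝓝[>] 0, r < 1 / 2 :=
      (Iio_mem_nhds (by norm_num : (0 : ℝ) < 1 / 2)) |> mem_nhdsWithin_of_mem_nhds
    filter_upwards [hev, self_mem_nhdsWithin] with r hr hr0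
    simp only [mem_Ioi] at hr0
    have h1 := key2 hA h0 (r := r) (s := r - r ^ 2) (by nlinarith) (by nlinarith)
    have h2 := Real.add_one_le_exp (r - r ^ 2)
    have h3 : (lap (Metric.thickening r A)).toReal ≤ 1 := lap_real_le
    set m := (lap (Metric.thickening r A)).toReal
    set a := (lap A).toReal
    have h4 : (1 + r - r ^ 2) * (1 - m) ≤ 1 - a := by
      refine le_trans ?_ h1
      apply mul_le_mul_of_nonneg_right (by linarith) (by linarith)
    have hp : 0 < 1 + r - r ^ 2 := by nlinarith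
    -- m - a ≥ (1 - a) (r - r²)/(1 + r - r²)
    have h5 : (1 - a) * (r - r ^ 2) ≤ (m - a) * (1 + r - r ^ 2) := by nlinarith
    have h6 : min a (1 - a) * (1 - 2 * r) * r * (1 + r - r ^ 2) ≤ (1 - a) * (r - r ^ 2) := by
      have h7 : (1 - 2 * r) * r * (1 + r - r ^ 2) ≤ r - r ^ 2 := by
        have : 0 ≤ r ^ 3 * (3 - 2 * r) := mul_nonneg (by positivity) (by linarith)
        nlinarith [this]
      have h8 : 0 ≤ (1 - 2 * r) * r * (1 + r - r ^ 2) := by
        apply mul_nonneg (mul_nonneg (by linarith) hr0.le) hp.le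
      calc min a (1 - a) * (1 - 2 * r) * r * (1 + r - r ^ 2)
          = min a (1 - a) * ((1 - 2 * r) * r * (1 + r - r ^ 2)) := by ring
        _ ≤ (1 - a) * ((1 - 2 * r) * r * (1 + r - r ^ 2)) := by gcongr
        _ ≤ (1 - a) * (r - r ^ 2) := by
            apply mul_le_mul_of_nonneg_left h7 (by linarith)
    exact le_of_mul_le_mul_right (h6.trans h5) hp
  · obtain ⟨δ, hδ, h⟩ := key1 hA h0
    have hev : ∀ᶠ r : ℝ in 𝓝[>] 0, r < 1 / 2 :=
      (Iio_mem_nhds (by norm_num : (0 : ℝ) < 1 / 2)) |> mem_nhdsWithin_of_mem_nhds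
    have hev2 : ∀ᶠ r : ℝ in 𝓝[>] 0, r < δ :=
      (Iio_mem_nhds hδ) |> mem_nhdsWithin_of_mem_nhds
    filter_upwards [hev, hev2, self_mem_nhdsWithin] with r hr hrδ hr0
    simp only [mem_Ioi] at hr0
    have h1 := h r (r - r ^ 2) (by nlinarith) (by nlinarith) hrδ
    have h2 := Real.add_one_le_exp (r - r ^ 2)
    set m := (lap (Metric.thickening r A)).toReal
    set a := (lap A).toReal
    have h4 : (1 + r - r ^ 2) * a ≤ m := by
      refine le_trans ?_ h1
      apply mul_le_mul_of_nonneg_right (by linarith) ha0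
    have h8 : 0 ≤ (1 - 2 * r) * r := mul_nonneg (by linarith) hr0.le
    calc min a (1 - a) * (1 - 2 * r) * r = min a (1 - a) * ((1 - 2 * r) * r) := by ring
      _ ≤ a * ((1 - 2 * r) * r) := by gcongr
      _ ≤ m - a := by nlinarith [mul_nonneg ha0 (sq_nonneg r)]

theorem one_dim {A : Set ℝ} (hA : MeasurableSet A) :
    ENNReal.ofReal (min (lap A).toReal (1 - (lap A).toReal)) ≤ boundaryMeasure lap A := by
  set c := min (lap A).toReal (1 - (lap A).toReal) with hc
  have ht : Tendsto (fun r : ℝ => ENNReal.ofReal (c * (1 - 2 * r))) (𝓝[>] 0)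
      (𝓝 (ENNReal.ofReal c)) := by
    have h1 : Tendsto (fun r : ℝ => c * (1 - 2 * r)) (𝓝[>] 0) (𝓝 (c * (1 - 2 * 0))) := by
      apply Tendsto.mono_left _ nhdsWithin_le_nhds
      exact Continuous.tendsto (by fun_prop) 0
    have h2 := ENNReal.tendsto_ofReal h1
    simpa using h2
  unfold boundaryMeasure
  rw [← ht.liminf_eq]
  refine liminf_le_liminf ?_
  filter_upwards [quot hA, self_mem_nhdsWithin] with r hr hr0
  simp only [mem_Ioi] at hr0
  rw [ENNReal.le_div_iff_mul_le (Or.inl (by simpa using hr0)) (Or.inl ENNReal.ofReal_ne_top),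
    ← ENNReal.ofReal_mul' hr0.le]
  refine le_trans (ENNReal.ofReal_le_ofReal hr) ?_
  rw [ENNReal.ofReal_sub _ ENNReal.toReal_nonneg, ENNReal.ofReal_toReal (measure_ne_top _ _),
    ENNReal.ofReal_toReal (measure_ne_top _ _)]

/-- lower bound for `R` -/
theorem R_ge {a : ℝ} (ha : 0 < a) :
    ENNReal.ofReal (min 1 ((1 - a) / a)) ≤ R lap a := by
  unfold R
  rw [ENNReal.le_div_iff_mul_le (Or.inl (by simpa using ha)) (Or.inl ENNReal.ofReal_ne_top),
    ← ENNReal.ofReal_mul' ha.le]
  unfold profile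
  refine le_iInf fun A => le_iInf fun hA => le_iInf fun h => ?_
  have h1 := one_dim hA
  rw [h, ENNReal.toReal_ofReal ha.le] at h1
  refine le_trans (ENNReal.ofReal_le_ofReal ?_) h1
  rw [min_mul_of_nonneg _ _ ha.le, one_mul, div_mul_cancel₀ _ ha.ne']

end Q188.Pyth
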