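import Pool.Agent.Q188.Pyth.One

/-!
# Half-planes for the product of two two-sided exponential laws
-/

set_option autoImplicit false

open MeasureTheory Filter Topology Set
open scoped ENNReal

namespace Q188.Pyth

theorem symLogConcave_lap : SymLogConcave lap where
  prob := inferInstance
  density := by
    refine ⟨dens, dens_cont.measurable, dens_nonneg, ?_, rfl⟩
    intro x y s hs hs1
    have e : ∀ x : ℝ, dens x = Real.exp (-|x| - Real.log 2) := by
      intro x
      rw [Real.exp_sub, Real.exp_log (by norm_num)]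
      rfl
    rw [e x, e y, e (s * x + (1 - s) * y), ← Real.exp_mul, ← Real.exp_mul, ← Real.exp_add]
    apply Real.exp_le_exp.2
    have h1 : |s * x + (1 - s) * y| ≤ s * |x| + (1 - s) * |y| := by
      refine (abs_add_le _ _).trans ?_
      rw [abs_mul, abs_mul, abs_of_pos hs, abs_of_pos (by linarith : 0 < 1 - s)]
    nlinarith
  symm := lap_symm

/-- `(μ ⊗ μ) {x + y < t}` -/
noncomputable def G (t : ℝ) : ℝ := Real.exp t * (2 - t) / 4

theorem F_nonneg (t : ℝ) : 0 ≤ F t := by
  unfold F
  split_ifs with h
  · positivity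
  · have : Real.exp (-t) ≤ 1 := Real.exp_le_one_iff.2 (by linarith)
    linarith

theorem F_le_one (t : ℝ) : F t ≤ 1 := by
  unfold F
  split_ifs with h
  · have : Real.exp t ≤ 1 := Real.exp_le_one_iff.2 h
    linarith
  · have := Real.exp_pos (-t)
    linarith

theorem F_meas : Measurable F := by
  unfold F
  apply Measurable.ite measurableSet_Iic
  · fun_prop
  · fun_prop

theorem int_conv {t : ℝ} (ht : t ≤ 0) : ∫ x, F (t - x) * dens x = G t := by
  have hint : Integrable (fun x => F (t - x) * dens x) := by
    apply Integrable.bdd_mul (c := 1) integrable_dens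
    · exact (F_meas.comp (measurable_const.sub measurable_id)).aestronglyMeasurable
    · refine Eventually.of_forall fun x => ?_
      rw [Real.norm_of_nonneg (F_nonneg _)]
      exact F_le_one _
  have h1 : ∫ x in Iic t, F (t - x) * dens x = 3 * Real.exp t / 8 := by
    have e : ∀ x ∈ Iic t, F (t - x) * dens x
        = Real.exp x / 2 - Real.exp (-t) * (Real.exp (2 * x) / 4) := by
      intro x hx
      simp only [mem_Iic] at hx
      rw [dens_neg (hx.trans ht)]
      unfold F
      split_ifs with h
      · have : x = t := by linarith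
        subst this
        rw [sub_self, Real.exp_zero, two_mul, Real.exp_add, Real.exp_neg]
        field_simp
        ring
      · rw [neg_sub, Real.exp_sub, two_mul, Real.exp_add, Real.exp_neg]
        field_simp
        ring
    rw [setIntegral_congr_fun measurableSet_Iic e, integral_sub, integral_div, integral_exp_Iic,
      integral_const_mul, integral_div]
    · have h2 : ∫ x in Iic t, Real.exp (2 * x) = Real.exp (2 * t) / 2 := by
        have := integral_exp_mul_Iic (a := 2) (by norm_num) t
        simpa using this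
      rw [h2, two_mul, Real.exp_add, Real.exp_neg]
      field_simp
      ring
    · exact (integrableOn_exp_Iic t).div_const 2
    · have := integrableOn_exp_mul_Iic (a := 2) (by norm_num) t
      exact (this.div_const 4).const_mul _
  have h2 : ∫ x in Ioc t 0, F (t - x) * dens x = - t * Real.exp t / 4 := by
    have e : ∀ x ∈ Ioc t 0, F (t - x) * dens x = Real.exp t / 4 := by
      intro x hx
      rw [dens_neg hx.2]
      unfold F
      rw [if_pos (by linarith [hx.1]), Real.exp_sub]
      field_simp
      ring
    rw [setIntegral_congr_fun measurableSet_Ioc e, setIntegral_const]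
    simp [Measure.real, ht]
    ring
  have h3 : ∫ x in Ioi 0, F (t - x) * dens x = Real.exp t / 8 := by
    have e : ∀ x ∈ Ioi (0 : ℝ), F (t - x) * dens x = Real.exp t / 4 * Real.exp ((-2) * x) := by
      intro x hx
      simp only [mem_Ioi] at hx
      rw [dens_pos hx.le]
      unfold F
      have : (-2) * x = -x + -x := by ring
      rw [if_pos (by linarith), Real.exp_sub, this, Real.exp_add, Real.exp_neg]
      field_simp
      ring
    rw [setIntegral_congr_fun measurableSet_Ioi e, integral_const_mul,
      integral_exp_mul_Ioi (by norm_num)]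
    simp
    ring
  rw [← setIntegral_univ, ← Iic_union_Ioi (a := t), setIntegral_union (Set.Iic_disjoint_Ioi le_rfl)
    measurableSet_Ioi hint.integrableOn hint.integrableOn, ← Ioc_union_Ioi_eq_Ioi ht,
    setIntegral_union (Set.Ioc_disjoint_Ioi le_rfl) measurableSet_Ioi hint.integrableOn
      hint.integrableOn, h1, h2, h3]
  unfold G
  ring

/-- open half-plane -/
def H (t : ℝ) : Set (EuclideanSpace ℝ (Fin 2)) := {v | v 0 + v 1 < t}

theorem H_open (t : ℝ) : IsOpen (H t) := by
  unfold H
  apply isOpen_lt
  · fun_prop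
  · fun_prop

theorem prod_H {t : ℝ} (ht : t ≤ 0) : prodMeasure lap lap (H t) = ENNReal.ofReal (G t) := by
  have hm : Measurable fun p : ℝ × ℝ => (!₂[p.1, p.2] : EuclideanSpace ℝ (Fin 2)) := by
    have : Continuous fun p : ℝ × ℝ => (!₂[p.1, p.2] : EuclideanSpace ℝ (Fin 2)) := by
      fun_prop
    exact this.measurable
  unfold prodMeasure
  rw [Measure.map_apply hm (H_open t).measurableSet,
    Measure.prod_apply (hm (H_open t).measurableSet)]
  have e : ∀ x : ℝ, lap (Prod.mk x ⁻¹' ((fun p : ℝ × ℝ => (!₂[p.1, p.2] :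
      EuclideanSpace ℝ (Fin 2))) ⁻¹' H t)) = ENNReal.ofReal (F (t - x)) := by
    intro x
    rw [← lap_Iio]
    congr 1
    ext y
    simp only [H, mem_preimage, mem_ofPred_eq, mem_Iio]
    simp only [Matrix.cons_val_zero, Matrix.cons_val_one]
    constructor <;> intro h <;> linarith
  simp only [e]
  unfold lap
  have hFm : Measurable fun x : ℝ => ENNReal.ofReal (F (t - x)) :=
    (F_meas.comp (measurable_const.sub measurable_id)).ennreal_ofReal
  rw [lintegral_withDensity_eq_lintegral_mul _ dens_cont.measurable.ennreal_ofReal hFm,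
    ← int_conv ht,
    ofReal_integral_eq_lintegral_ofReal]
  · congr 1
    funext x
    simp only [Pi.mul_apply]
    rw [mul_comm, ENNReal.ofReal_mul (F_nonneg _)]
  · apply Integrable.bdd_mul (c := 1) integrable_dens
    · exact (F_meas.comp (measurable_const.sub measurable_id)).aestronglyMeasurable
    · refine Eventually.of_forall fun x => ?_
      rw [Real.norm_of_nonneg (F_nonneg _)]
      exact F_le_one _
  · exact Eventually.of_forall fun x => mul_nonneg (F_nonneg _) (dens_nonneg _)

theorem thick_H (t : ℝ) {r : ℝ} : Metric.thickening r (H t) ⊆ H (t + √2 * r) := by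
  intro v hv
  rw [Metric.mem_thickening_iff] at hv
  obtain ⟨z, hz, hd⟩ := hv
  simp only [H, mem_ofPred_eq] at hz ⊢
  rw [EuclideanSpace.dist_eq] at hd
  simp only [Fin.sum_univ_two, Real.dist_eq, sq_abs] at hd
  have h1 : (v 0 - z 0) + (v 1 - z 1) ≤ √2 * √((v 0 - z 0) ^ 2 + (v 1 - z 1) ^ 2) := by
    rw [← Real.sqrt_mul (by norm_num)]
    apply Real.le_sqrt_of_sq_le
    nlinarith [sq_nonneg ((v 0 - z 0) - (v 1 - z 1))]
  have h2 : √2 * √((v 0 - z 0) ^ 2 + (v 1 - z 1) ^ 2) < √2 * r := by
    apply mul_lt_mul_of_pos_left hd (by positivity)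
  linarith

theorem hasDerivAt_G (t : ℝ) : HasDerivAt G (Real.exp t * (1 - t) / 4) t := by
  unfold G
  have h := ((Real.hasDerivAt_exp t).mul ((hasDerivAt_id t).const_sub 2)).div_const 4
  refine (h.congr_deriv ?_)
  simp only [id]
  ring

theorem bdry_H : boundaryMeasure (prodMeasure lap lap) (H (-1)) ≤
    ENNReal.ofReal (√2 * (Real.exp (-1) / 2)) := by
  have hlim : Tendsto (fun r : ℝ => (G (-1 + √2 * r) - G (-1)) / r) (𝓝[>] 0)
      (𝓝 (√2 * (Real.exp (-1) / 2))) := by
    have h1 : HasDerivAt (fun r : ℝ => G (-1 + √2 * r)) (√2 * (Real.exp (-1) / 2)) 0 := by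
      have h2 : HasDerivAt (fun r : ℝ => -1 + √2 * r) (√2) 0 := by
        have := ((hasDerivAt_id (0 : ℝ)).const_mul (√2)).const_add (-1)
        simpa using this
      have h3 := HasDerivAt.comp (h₂ := G) (h := fun r : ℝ => -1 + √2 * r) 0
        (by simpa using hasDerivAt_G (-1)) h2
      refine h3.congr_deriv ?_
      ring
    have h4 := h1.tendsto_slope_zero_right
    refine h4.congr fun r => ?_
    simp only [zero_add, mul_zero, add_zero, smul_eq_mul]
    ring
  have h5 := ENNReal.tendsto_ofReal hlim
  unfold boundaryMeasure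
  rw [← h5.liminf_eq]
  refine liminf_le_liminf ?_
  have hev : ∀ᶠ r : ℝ in 𝓝[>] 0, r < 1 / 2 :=
    (Iio_mem_nhds (by norm_num : (0 : ℝ) < 1 / 2)) |> mem_nhdsWithin_of_mem_nhds
  filter_upwards [hev, self_mem_nhdsWithin] with r hr hr0
  simp only [mem_Ioi] at hr0
  have h6 : √2 ≤ 2 := by
    rw [Real.sqrt_le_left (by norm_num)]; norm_num
  have h7 : -1 + √2 * r ≤ 0 := by nlinarith
  have h8 : prodMeasure lap lap (Metric.thickening r (H (-1))) ≤ ENNReal.ofReal (G (-1 + √2 * r)) := by
    rw [← prod_H h7]
    exact measure_mono (thick_H _)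
  have hG : 0 ≤ G (-1) := by unfold G; positivity
  rw [prod_H (by norm_num), ENNReal.ofReal_div_of_pos hr0, ENNReal.ofReal_sub _ hG]
  gcongr

theorem R_lt : (R (prodMeasure lap lap) (3 / 4 * Real.exp (-1))) ^ 2 < 1 := by
  have h1 : profile (prodMeasure lap lap) (3 / 4 * Real.exp (-1)) ≤
      ENNReal.ofReal (√2 * (Real.exp (-1) / 2)) := by
    refine le_trans (iInf_le_of_le (H (-1)) (iInf_le_of_le (H_open _).measurableSet
      (iInf_le_of_le ?_ le_rfl))) bdry_H
    rw [prod_H (by norm_num)]
    congr 1
    unfold G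
    ring
  have hp : 0 < Real.exp (-1) := Real.exp_pos _
  have h2 : R (prodMeasure lap lap) (3 / 4 * Real.exp (-1)) ≤ ENNReal.ofReal (2 * √2 / 3) := by
    unfold R
    refine (ENNReal.div_le_div_right h1 _).trans ?_
    rw [← ENNReal.ofReal_div_of_pos (by positivity)]
    apply ENNReal.ofReal_le_ofReal
    apply le_of_eq
    field_simp
    ring
  calc (R (prodMeasure lap lap) (3 / 4 * Real.exp (-1))) ^ 2
      ≤ ENNReal.ofReal (2 * √2 / 3) ^ 2 := by gcongr
    _ = ENNReal.ofReal (8 / 9) := by
        rw [← ENNReal.ofReal_pow (by positivity)]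
        congr 1
        rw [div_pow, mul_pow, Real.sq_sqrt (by norm_num)]
        norm_num
    _ < 1 := by
        rw [ENNReal.ofReal_lt_one]
        norm_num

end Q188.Pyth
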